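import Pool.Agent.Q70.BvD

/-!
# Every generalized Bratteli diagram admits an order generating a Borel Vershik map

The definitions of diagrams, orders and of the Vershik map are in `Pool.Agent.Q70.BvA`, the
topology and the Borel structure of the path space are in `Pool.Agent.Q70.BvB`, and
`GeneratesBorel` is in `Pool.Agent.Q70.BvD`.
-/

set_option autoImplicit false

universe u

namespace Pool.Agent.Results.MP_f8f5a4_an.BorelVershik

open Q70.Bv

/-- Every generalized Bratteli diagram admits an order that generates a Borel Vershik map. -/
theorem result (D : Diagram.{u}) :
    ∃ le : ∀ i, D.E i → D.E i → Prop, IsOrd le ∧ GeneratesBorel le :=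
  main D

end Pool.Agent.Results.MP_f8f5a4_an.BorelVershik
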